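import Pool.Agent.LibFed070.Main

set_option autoImplicit false

/-! The prime spectrum of the computable ring of a tree is the class of its paths with the reversed
lexicographic order, uniformly. -/

namespace Pool.Agent.LibFed070

open Filter
open scoped List

section order

variable {T : List ℕ → Bool} {g : List ℕ → ℕ}

theorem pair_sub_range {i j k : ℕ} (hij : i < j) (hjk : j < k) : [i, j] <+ List.range k := by
  rw [List.cons_sublist_iff]
  refine ⟨List.range (i + 1), (List.range (k - (i + 1))).map (fun x => (i + 1) + x), ?_, ?_, ?_⟩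
  · have h1 : k = (i + 1) + (k - (i + 1)) := by omega
    conv_lhs => rw [h1]
    exact List.range_add
  · simp
  · rw [List.singleton_sublist, List.mem_map]
    exact ⟨j - (i + 1), by rw [List.mem_range]; omega, by omega⟩

theorem flatMap_sub {A B : List (List ℕ)} (h : A <+ B) (φ : List ℕ → List (List ℕ)) :
    A.flatMap φ <+ B.flatMap φ := by
  induction h with
  | slnil => exact List.Sublist.refl _
  | cons a _ ih =>
    rw [List.flatMap_cons]
    exact ih.trans (List.sublist_append_right _ _)
  | cons_cons a _ ih =>
    rw [List.flatMap_cons, List.flatMap_cons]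
    exact List.Sublist.append (List.Sublist.refl _) ih

theorem pair_sub_ch {σ : List ℕ} {i j : ℕ} (hij : i < j) (hj : j < g σ)
    (hTi : T (σ ++ [i]) = true) (hTj : T (σ ++ [j]) = true) :
    [σ ++ [i], σ ++ [j]] <+ ch T g σ := by
  unfold ch
  have h1 : [σ ++ [i], σ ++ [j]] <+ (List.range (g σ)).map (fun i => σ ++ [i]) := by
    have := (pair_sub_range hij hj).map (fun i => σ ++ [i])
    simpa using this
  have h2 := flatMap_sub h1 (fun τ => if T τ = true then [τ] else [])
  simpa [hTi, hTj] using h2

theorem pair_sub_lv (hT : TreeHyp T g) (f f' : ℕ → ℕ) (hf : f ∈ Paths T) (hf' : f' ∈ Paths T)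
    (n : ℕ) (heq : ∀ m < n, f m = f' m) (hlt : f n < f' n) (l : ℕ) :
    [seg f (n + 1 + l), seg f' (n + 1 + l)] <+ lv T g (n + 1 + l) := by
  have hmem : ∀ f ∈ Paths T, ∀ l, seg f l ∈ lv T g l := by
    intro f hf l
    rw [mem_lv hT]
    exact ⟨hf l, seg_length f l⟩
  have hsucc : ∀ l, lv T g (l + 1) = (lv T g l).flatMap (ch T g) := fun l => rfl
  have hch : ∀ f ∈ Paths T, ∀ l, seg f (l + 1) ∈ ch T g (seg f l) := by
    intro f hf l
    rw [mem_ch, seg_succ]
    have h := hf (l + 1)
    change T (seg f (l + 1)) = true at h
    rw [seg_succ] at h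
    exact ⟨f l, hT.bdd _ _ h, rfl, h⟩
  induction l with
  | zero =>
    rw [Nat.add_zero, hsucc]
    have hs : seg f' n = seg f n := by
      unfold seg
      apply List.map_congr_left
      intro m hm
      rw [List.mem_range] at hm
      exact (heq m hm).symm
    have h1 := hf (n + 1)
    have h2 := hf' (n + 1)
    change T (seg f (n + 1)) = true at h1
    change T (seg f' (n + 1)) = true at h2
    rw [seg_succ] at h1 h2
    rw [hs] at h2
    rw [seg_succ, seg_succ, hs]
    have h3 := pair_sub_ch (g := g) hlt (hT.bdd _ _ h2) h1 h2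
    refine h3.trans ?_
    have h4 : [seg f n] <+ lv T g n := List.singleton_sublist.2 (hmem f hf n)
    have h5 := flatMap_sub h4 (ch T g)
    simpa using h5
  | succ l ih =>
    have h1 := flatMap_sub ih (ch T g)
    rw [← Nat.add_assoc, hsucc]
    refine List.Sublist.trans ?_ h1
    rw [List.flatMap_cons, List.flatMap_singleton]
    have e : [seg f (n + 1 + l + 1), seg f' (n + 1 + l + 1)] =
        [seg f (n + 1 + l + 1)] ++ [seg f' (n + 1 + l + 1)] := rfl
    rw [e]
    exact List.Sublist.append (List.singleton_sublist.2 (hch f hf _))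
      (List.singleton_sublist.2 (hch f' hf' _))

/-- smaller paths have larger cuts -/
theorem cutOf_ssubset (hT : TreeHyp T g) (f f' : ℕ → ℕ) (hf : f ∈ Paths T) (hf' : f' ∈ Paths T)
    (n : ℕ) (heq : ∀ m < n, f m = f' m) (hlt : f n < f' n) :
    cutOf T g f' ⊂ cutOf T g f := by
  have hsub : cutOf T g f' ⊆ cutOf T g f := by
    intro k hk
    change seg f' k.unpair.1 ∈ bas T g k at hk
    change seg f k.unpair.1 ∈ bas T g k
    rcases Nat.lt_or_ge n k.unpair.1 with h | h
    · obtain ⟨l, hl⟩ : ∃ l, k.unpair.1 = n + 1 + l := ⟨k.unpair.1 - (n + 1), by omega⟩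
      have h1 := pair_sub_lv hT f f' hf hf' n heq hlt l
      rw [← hl, List.cons_sublist_iff] at h1
      obtain ⟨r₁, r₂, h2, h3, h4⟩ := h1
      rw [List.singleton_sublist] at h4
      unfold bas at hk ⊢
      have hnd := nodup_lv (T := T) (g := g) k.unpair.1
      rw [h2] at hk hnd ⊢
      rw [List.nodup_append] at hnd
      rw [List.take_append] at hk ⊢
      rcases List.mem_append.1 hk with h5 | h5
      · exact absurd rfl (hnd.2.2 _ (List.mem_of_mem_take h5) _ h4)
      · have h6 : k.unpair.2 - r₁.length ≠ 0 := by
          intro h0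
          rw [h0] at h5
          simp at h5
        apply List.mem_append_left
        rw [List.take_of_length_le (by omega)]
        exact h3
    · have h1 : seg f k.unpair.1 = seg f' k.unpair.1 := by
        unfold seg
        apply List.map_congr_left
        intro m hm
        rw [List.mem_range] at hm
        exact heq m (by omega)
      rw [h1]
      exact hk
  refine ⟨hsub, fun hsub' => ?_⟩
  have h1 := cutOf_injOn hT f f' hf hf' (Set.Subset.antisymm hsub' hsub)
  rw [h1] at hlt
  exact lt_irrefl _ hlt

end order

section spec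

variable (T : List ℕ → Bool) (g : List ℕ → ℕ)

/-- the prime ideal of a path -/
noncomputable def primeOf (f : ℕ → ℕ) (hS : IsCut T g (cutOf T g f)) : PrimeSpectrum (RR T g) :=
  ⟨(idealOf T g (cutOf T g f) hS).map (Ideal.Quotient.mk (IK T g)), map_isPrime T g f hS⟩

theorem primeOf_lt {f f' : ℕ → ℕ} (hS : IsCut T g (cutOf T g f)) (hS' : IsCut T g (cutOf T g f'))
    (h : cutOf T g f' ⊂ cutOf T g f) : primeOf T g f' hS' < primeOf T g f hS := by
  have key : idealOf T g (cutOf T g f') hS' ≤ idealOf T g (cutOf T g f) hS := by
    intro x hx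
    by_cases h0 : (x : Fld) = 0
    · have : x = 0 := Subtype.ext h0
      rw [this]; exact Ideal.zero_mem _
    · obtain ⟨a, k, hak⟩ := x.2.1
      have hp' := idealOf_isPrime T g _ hS'
      have hp := idealOf_isPrime T g _ hS
      obtain ⟨n, _, hn, hle⟩ := cls_frac T g _ hp' x a k hak h0 hx
      apply zz_back T g _ hp x n _ hle
      have h1 := cutIdeal_idealOf T g _ hS'
      have h2 := cutIdeal_idealOf T g _ hS
      have h3 : n ∈ cutOf T g f' := by rw [← h1]; exact hn
      have h4 : n ∈ cutOf T g f := h.1 h3
      rw [← h2] at h4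
      exact h4
  have hle : primeOf T g f' hS' ≤ primeOf T g f hS := by
    rw [← PrimeSpectrum.asIdeal_le_asIdeal]
    exact Ideal.map_mono key
  refine lt_of_le_of_ne hle ?_
  intro heq
  apply h.2
  have h1 := congrArg PrimeSpectrum.asIdeal heq
  intro n hn
  rw [← cutIdeal_idealOf T g _ hS] at hn
  rw [← cutIdeal_idealOf T g _ hS']
  change zz T g n ∈ idealOf T g _ hS at hn
  change zz T g n ∈ idealOf T g _ hS'
  rw [← mk_mem_iff T g _ (IK_le_idealOf T g _ hS)] at hn
  rw [← mk_mem_iff T g _ (IK_le_idealOf T g _ hS')]
  change _ ∈ (primeOf T g f' hS').asIdeal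
  rw [h1]
  exact hn

variable {T g} in
/-- the bijection between the paths and the prime ideals -/
theorem primeOf_bijective (hT : TreeHyp T g) :
    Function.Bijective (fun f : Paths T => primeOf T g f.1 (isCut_cutOf hT f.1 f.2)) := by
  constructor
  · intro f f' heq
    by_contra hne
    have hne' : f.1 ≠ f'.1 := fun h => hne (Subtype.ext h)
    obtain ⟨n, hn⟩ := Function.ne_iff.1 hne'
    classical
    have hex : ∃ n, f.1 n ≠ f'.1 n := ⟨n, hn⟩
    have h1 := Nat.find_spec hex
    have h2 : ∀ m < Nat.find hex, f.1 m = f'.1 m := fun m hm => not_not.1 (Nat.find_min hex hm)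
    rcases lt_or_gt_of_ne h1 with h | h
    · have h3 := cutOf_ssubset hT f.1 f'.1 f.2 f'.2 _ h2 h
      have h4 := primeOf_lt T g (isCut_cutOf hT f.1 f.2) (isCut_cutOf hT f'.1 f'.2) h3
      exact absurd heq (ne_of_gt h4)
    · have h3 := cutOf_ssubset hT f'.1 f.1 f'.2 f.2 _ (fun m hm => (h2 m hm).symm) h
      have h4 := primeOf_lt T g (isCut_cutOf hT f'.1 f'.2) (isCut_cutOf hT f.1 f.2) h3
      exact absurd heq (ne_of_lt h4)
  · intro 𝔭
    set 𝔮 := 𝔭.asIdeal.comap (Ideal.Quotient.mk (IK T g)) with h𝔮
    have h𝔮p : 𝔮.IsPrime := Ideal.IsPrime.comap _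
    have hI : IK T g ≤ 𝔮 := by
      intro x hx
      rw [h𝔮, Ideal.mem_comap, Ideal.Quotient.eq_zero_iff_mem.2 hx]
      exact 𝔭.asIdeal.zero_mem
    have hS := isCut_cutIdeal T g 𝔮 h𝔮p hI
    obtain ⟨f, hf, hfS⟩ := exists_path_of_isCut hT _ hS
    have hS' := isCut_cutOf hT f hf
    have heq := eq_idealOf T g 𝔮 h𝔮p hI (cutOf T g f) hS' hfS
    refine ⟨⟨f, hf⟩, ?_⟩
    apply PrimeSpectrum.ext
    change (idealOf T g (cutOf T g f) hS').map (Ideal.Quotient.mk (IK T g)) = 𝔭.asIdeal
    rw [← heq, h𝔮]
    exact Ideal.map_comap_of_surjective _ Ideal.Quotient.mk_surjective _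

/-- the ring is a chain ring -/
theorem dvd_total_RR (x y : RR T g) : x ∣ y ∨ y ∣ x := by
  obtain ⟨a, rfl⟩ := Ideal.Quotient.mk_surjective x
  obtain ⟨b, rfl⟩ := Ideal.Quotient.mk_surjective y
  by_cases ha : (a : Fld) = 0
  · right
    have : a = 0 := Subtype.ext ha
    rw [this, map_zero]
    exact dvd_zero _
  by_cases hb : (b : Fld) = 0
  · left
    have : b = 0 := Subtype.ext hb
    rw [this, map_zero]
    exact dvd_zero _
  rcases le_total (a : Fld).orderTop (b : Fld).orderTop with h | h
  · left
    obtain ⟨w, rfl⟩ := dvd_of_le T g b a ha h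
    rw [map_mul]
    exact dvd_mul_right _ _
  · right
    obtain ⟨w, rfl⟩ := dvd_of_le T g a b hb h
    rw [map_mul]
    exact dvd_mul_right _ _

end spec

section uniform

variable (T : List ℕ → Bool) (g : List ℕ → ℕ)

/-- the amount of the path needed -/
def useP (n : ℕ) : ℕ := Encodable.encode (dec n)

/-- the functional computing the prime from the path -/
noncomputable def funP (n : ℕ) (σ : List ℕ) : ℕ :=
  bif (univ (nu T g) (nu_surj T g) n && inDec T g (dec n) σ) then 1 else 0

theorem computable_useP : Computable useP :=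
  Computable.encode.comp primrec_dec.to_comp

variable {T g} in
theorem computable_funP (hTc : Computable T) (hgc : Computable g) (hP : Dom T g rt ut) :
    Computable₂ (funP T g) := by
  have hU := computable_univ (nu T g) (nu_surj T g) (computable_eqC hTc hgc) (eqC_iff T g hP)
  have h1 : Computable (fun p : ℕ × List ℕ =>
      (univ (nu T g) (nu_surj T g) p.1 && inDec T g (dec p.1) p.2)) :=
    (Primrec.and.to_comp).comp (hU.comp Computable.fst)
      ((computable_inDec hTc hgc).comp (primrec_dec.to_comp.comp Computable.fst) Computable.snd)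
  exact Computable.cond h1 (Computable.const 1) (Computable.const 0)

variable {T g} in
theorem chf_eq_funP (hT : TreeHyp T g) (f : ℕ → ℕ) (hf : f ∈ Paths T) (n : ℕ) :
    chf T g f n = funP T g n (seg f (useP n)) := by
  have h1 := inDec_iff hT f hf (dec n) (Encodable.encode (dec n)) le_rfl
  have h2 := chf_eq_one T g f n
  rw [← h1] at h2
  unfold funP useP
  rcases chf_zero_or_one T g f n with h | h
  · rw [h]
    have h3 : ¬ (univ (nu T g) (nu_surj T g) n = true ∧
        inDec T g (dec n) (seg f (Encodable.encode (dec n))) = true) := by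
      rw [← h2, h]; omega
    rw [← Bool.and_eq_true, Bool.not_eq_true] at h3
    rw [h3]
    rfl
  · rw [h]
    have h3 := h2.1 h
    rw [← Bool.and_eq_true] at h3
    rw [h3]
    rfl

/-- the amount of the prime needed -/
noncomputable def useF (l : ℕ) : ℕ := ((List.range ((lv T g (l + 1)).length + 1)).map
    (fun i => zcode T g (l + 1) i + 1)).sum

/-- the count -/
noncomputable def cntF (l : ℕ) (P : List ℕ) : ℕ :=
  ((List.range ((lv T g (l + 1)).length + 1)).map
    (fun i => P.getD (zcode T g (l + 1) i) 0)).sum

/-- the functional computing the path from the prime -/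
noncomputable def funF (l : ℕ) (P : List ℕ) : ℕ :=
  ((lv T g (l + 1)).getD ((lv T g (l + 1)).length - cntF T g l P) []).getD l 0

variable {T g} in
theorem computable_zcode (hTc : Computable T) (hgc : Computable g) (hP : Dom T g rt ut) :
    Computable₂ (zcode T g) := by
  have hcanon := computable_canon (nu T g) (nu_surj T g) (computable_eqC hTc hgc)
    (eqC_iff T g hP)
  have h1 : Primrec (fun p : ℕ × ℕ =>
      Encodable.encode (([[Nat.pair p.1 p.2]], [[]], 0) : Code)) := by
    refine Primrec.encode.comp ?_
    refine Primrec.pair ?_ (Primrec.const ([[]], 0))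
    refine Primrec.list_cons.comp ?_ (Primrec.const [])
    exact Primrec.list_cons.comp (Primrec₂.natPair.comp Primrec.fst Primrec.snd)
      (Primrec.const [])
  exact hcanon.comp h1.to_comp

variable {T g} in
theorem computable_lenF (hTc : Computable T) (hgc : Computable g) :
    Computable (fun l : ℕ => (lv T g (l + 1)).length + 1) :=
  Computable.succ.comp (Computable.list_length.comp ((computable_lv hTc hgc).comp
    Computable.succ))

variable {T g} in
theorem computable_useF (hTc : Computable T) (hgc : Computable g) (hP : Dom T g rt ut) :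
    Computable (useF T g) := by
  have hz := computable_zcode hTc hgc hP
  have hlen := computable_lenF hTc hgc
  have h1 : Computable (fun l : ℕ => (List.range ((lv T g (l + 1)).length + 1)).map
      (fun i => zcode T g (l + 1) i + 1)) :=
    computable_map (f := fun l : ℕ => List.range ((lv T g (l + 1)).length + 1))
      (g := fun l i => zcode T g (l + 1) i + 1) (computable_list_range.comp hlen)
      (Computable.succ.comp (hz.comp (Computable.succ.comp Computable.fst) Computable.snd))
  exact primrec_list_sum.to_comp.comp h1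

variable {T g} in
theorem computable_funF (hTc : Computable T) (hgc : Computable g) (hP : Dom T g rt ut) :
    Computable₂ (funF T g) := by
  have hz := computable_zcode hTc hgc hP
  have hlen := computable_lenF hTc hgc
  have hgetD : Computable₂ (fun (l : List ℕ) (n : ℕ) => l.getD n 0) :=
    (Primrec.list_getD 0).to_comp
  have hgetD' : Computable₂ (fun (l : List (List ℕ)) (n : ℕ) => l.getD n []) :=
    (Primrec.list_getD []).to_comp
  have hc : Computable (fun p : ℕ × List ℕ => cntF T g p.1 p.2) := by
    have h1 : Computable (fun p : ℕ × List ℕ =>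
        (List.range ((lv T g (p.1 + 1)).length + 1)).map
        (fun i => p.2.getD (zcode T g (p.1 + 1) i) 0)) :=
      computable_map (f := fun p : ℕ × List ℕ => List.range ((lv T g (p.1 + 1)).length + 1))
        (g := fun p i => p.2.getD (zcode T g (p.1 + 1) i) 0)
        (computable_list_range.comp (hlen.comp Computable.fst))
        (hgetD.comp (Computable.snd.comp Computable.fst)
          (hz.comp (Computable.succ.comp (Computable.fst.comp Computable.fst)) Computable.snd))
    exact primrec_list_sum.to_comp.comp h1
  have hlv : Computable (fun p : ℕ × List ℕ => lv T g (p.1 + 1)) :=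
    (computable_lv hTc hgc).comp (Computable.succ.comp Computable.fst)
  have hidx : Computable (fun p : ℕ × List ℕ => (lv T g (p.1 + 1)).length - cntF T g p.1 p.2) :=
    (Primrec.nat_sub.to_comp).comp (Computable.list_length.comp hlv) hc
  exact hgetD.comp (hgetD'.comp hlv hidx) Computable.fst

variable {T g} in
theorem path_eq_funF (hT : TreeHyp T g) (f : ℕ → ℕ) (hf : f ∈ Paths T) (l : ℕ) :
    f l = funF T g l ((List.range (useF T g l)).map (chf T g f)) := by
  -- position of the node
  have hmem : seg f (l + 1) ∈ lv T g (l + 1) := by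
    rw [mem_lv hT]
    exact ⟨hf (l + 1), seg_length f (l + 1)⟩
  obtain ⟨j, hj, hj2⟩ := List.getElem_of_mem hmem
  have hnd := nodup_lv (T := T) (g := g) (l + 1)
  have hiff : ∀ i, seg f (l + 1) ∈ (lv T g (l + 1)).take i ↔ j < i := by
    intro i
    rw [← hj2]
    constructor
    · intro h1
      obtain ⟨c, hc, hc2⟩ := List.getElem_of_mem h1
      rw [List.getElem_take] at hc2
      have := (hnd.getElem_inj_iff).1 hc2
      rw [List.length_take] at hc
      omega
    · intro h1
      rw [List.mem_take_iff_getElem]
      exact ⟨j, by omega, rfl⟩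
  have hval : ∀ i ∈ List.range ((lv T g (l + 1)).length + 1),
      ((List.range (useF T g l)).map (chf T g f)).getD (zcode T g (l + 1) i) 0 =
        if j < i then 1 else 0 := by
    intro i hi
    have hlt : zcode T g (l + 1) i < useF T g l := by
      unfold useF
      have h1 : zcode T g (l + 1) i + 1 ∈ (List.range ((lv T g (l + 1)).length + 1)).map
          (fun i => zcode T g (l + 1) i + 1) := List.mem_map.2 ⟨i, hi, rfl⟩
      have h2 := List.single_le_sum (fun x _ => Nat.zero_le x) _ h1
      exact Nat.lt_of_succ_le h2
    have h3 : ((List.range (useF T g l)).map (chf T g f)).getD (zcode T g (l + 1) i) 0 =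
        chf T g f (zcode T g (l + 1) i) := by
      rw [List.getD_eq_getElem _ _ (by simpa using hlt)]
      simp
    rw [h3]
    have h4 := chf_zcode hT f hf (l + 1) i
    rw [hiff] at h4
    split_ifs with h5
    · exact h4.2 h5
    · rcases chf_zero_or_one T g f (zcode T g (l + 1) i) with h6 | h6
      · exact h6
      · exact absurd (h4.1 h6) h5
  have hsum : ∀ n, ((List.range n).map (fun i => if j < i then 1 else 0)).sum = n - (j + 1) := by
    intro n
    induction n with
    | zero => simp
    | succ n ih =>
      rw [List.range_succ, List.map_append, List.sum_append, ih]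
      simp only [List.map_cons, List.map_nil, List.sum_cons, List.sum_nil]
      split_ifs <;> omega
  have hc : cntF T g l ((List.range (useF T g l)).map (chf T g f)) =
      (lv T g (l + 1)).length - j := by
    unfold cntF
    rw [List.map_congr_left hval, hsum]
    omega
  unfold funF
  simp only [hc]
  have h5 : (lv T g (l + 1)).length - ((lv T g (l + 1)).length - j) = j := by omega
  rw [h5, List.getD_eq_getElem _ _ hj, hj2]
  rw [seg_succ, List.getD_eq_getElem?_getD, List.getElem?_append_right (by rw [seg_length]),
    seg_length]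
  simp

end uniform

end Pool.Agent.LibFed070
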